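import Mathlib
import Pool.Agent.Helper9.Hopf.Final

/-!
# Free lattice-ordered groups of finite rank

Surjections between free `l`-groups of finite ranks `n ≤ m` are isomorphisms; generating families with at most `n` members are free.
-/

set_option autoImplicit false

namespace Pool.Agent.Results.MP_258808_al.FreeRanks

/-- `φ` preserves the lattice operations. -/
def IsLHom {F G : Type} [Group F] [Lattice F] [Group G] [Lattice G] (φ : F →* G) : Prop :=
  (∀ a b : F, φ (a ⊔ b) = φ a ⊔ φ b) ∧ ∀ a b : F, φ (a ⊓ b) = φ a ⊓ φ b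

/-- `F` is the free `l`-group with the free generators `x i`. -/
def FreeOn {n : ℕ} (F : Type) [Group F] [Lattice F] (x : Fin n → F) : Prop :=
  ∀ (G : Type) [Group G] [Lattice G] [MulLeftMono G] [MulRightMono G] (g : Fin n → G),
    ∃! φ : F →* G, IsLHom φ ∧ ∀ i, φ (x i) = g i

/-- The `y i` generate `F` as an `l`-group. -/
def Generates {m : ℕ} (F : Type) [Group F] [Lattice F] (y : Fin m → F) : Prop :=
  ∀ L : Subgroup F, (∀ a b, a ∈ L → b ∈ L → a ⊔ b ∈ L) → (∀ a b, a ∈ L → b ∈ L → a ⊓ b ∈ L) → (∀ i, y i ∈ L) → L = ⊤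

section basic

variable {n : ℕ} {F : Type} [Group F] [Lattice F]

private lemma isFreeL {x : Fin n → F} (h : FreeOn F x) : Pool.Agent.Helper9.Hopf.IsFreeL F x := by
  intro G _ _ _ _ g
  obtain ⟨φ, ⟨⟨h1, h2⟩, h3⟩, h4⟩ := h G g
  exact ⟨φ, ⟨h1, h2, h3⟩, fun φ' ⟨h5, h6, h7⟩ => h4 φ' ⟨⟨h5, h6⟩, h7⟩⟩

private lemma comp_isLHom {G H : Type} [Group G] [Lattice G] [Group H] [Lattice H] {φ : F →* G} {ψ : G →* H} (h1 : IsLHom φ) (h2 : IsLHom ψ) :
    IsLHom (ψ.comp φ) :=
  ⟨fun a b => by simp only [MonoidHom.comp_apply, h1.1, h2.1], fun a b => by simp only [MonoidHom.comp_apply, h1.2, h2.2]⟩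

private lemma id_isLHom : IsLHom (MonoidHom.id F) := ⟨fun _ _ => rfl, fun _ _ => rfl⟩

variable [MulLeftMono F] [MulRightMono F]

private lemma generates_of_freeOn {x : Fin n → F} (h : FreeOn F x) : Generates F x := by
  intro L h1 h2 h3
  rw [eq_top_iff]
  intro a _
  exact Pool.Agent.Helper9.Hopf.gen_top (isFreeL h) L h1 h2 h3 a

omit [MulLeftMono F] [MulRightMono F] in
private lemma surj_of_range {m : ℕ} {G : Type} [Group G] [Lattice G] {y : Fin m → F} (h : Generates F y) (ψ : G →* F) (hψ : IsLHom ψ)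
    (hy : ∀ i, ∃ a, ψ a = y i) : Function.Surjective ψ := by
  have h1 := h ψ.range ?_ ?_ ?_
  · intro a
    have : a ∈ ψ.range := by rw [h1]; trivial
    exact this
  · rintro _ _ ⟨a, rfl⟩ ⟨b, rfl⟩
    exact ⟨a ⊔ b, hψ.1 a b⟩
  · rintro _ _ ⟨a, rfl⟩ ⟨b, rfl⟩
    exact ⟨a ⊓ b, hψ.2 a b⟩
  · intro i
    exact hy i

end basic

section terms

/-- Terms of `l`-groups in `n` variables. -/
private inductive T (n : ℕ) : Type
  | var : Fin n → T n
  | one : T n
  | mul : T n → T n → T n
  | inv : T n → T n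
  | sup : T n → T n → T n
  | inf : T n → T n → T n

private def T.eval {n : ℕ} {G : Type} [Group G] [Lattice G] (g : Fin n → G) : T n → G
  | .var i => g i
  | .one => 1
  | .mul a b => a.eval g * b.eval g
  | .inv a => (a.eval g)⁻¹
  | .sup a b => a.eval g ⊔ b.eval g
  | .inf a b => a.eval g ⊓ b.eval g

private def rel (n : ℕ) : Setoid (T n) where
  r s t := ∀ (G : Type) [Group G] [Lattice G] [MulLeftMono G] [MulRightMono G] (g : Fin n → G), s.eval g = t.eval g
  iseqv := ⟨fun _ _ _ _ _ _ _ => rfl, fun h G _ _ _ _ g => (h G g).symm, fun h h' G _ _ _ _ g => (h G g).trans (h' G g)⟩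

private def Q (n : ℕ) : Type := Quotient (rel n)

private def q {n : ℕ} (a : T n) : Q n := Quotient.mk (rel n) a

private instance (n : ℕ) : Group (Q n) :=
  let _ : Mul (Q n) := ⟨Quotient.map₂ T.mul (fun _ _ h _ _ h' G _ _ _ _ g => by
    show T.eval g _ * T.eval g _ = _ * _
    rw [h G g, h' G g])⟩
  let _ : One (Q n) := ⟨Quotient.mk (rel n) T.one⟩
  let _ : Inv (Q n) := ⟨Quotient.map T.inv (fun _ _ h G _ _ _ _ g => by
    show (T.eval g _)⁻¹ = _⁻¹
    rw [h G g])⟩
  Group.ofLeftAxioms
    (by
      intro a b c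
      induction a using Quotient.inductionOn with | _ a =>
      induction b using Quotient.inductionOn with | _ b =>
      induction c using Quotient.inductionOn with | _ c =>
      exact Quotient.sound (fun G _ _ _ _ g => mul_assoc _ _ _))
    (by
      intro a
      induction a using Quotient.inductionOn with | _ a =>
      exact Quotient.sound (fun G _ _ _ _ g => one_mul _))
    (by
      intro a
      induction a using Quotient.inductionOn with | _ a =>
      exact Quotient.sound (fun G _ _ _ _ g => inv_mul_cancel _))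

private instance (n : ℕ) : Lattice (Q n) :=
  let _ : Max (Q n) := ⟨Quotient.map₂ T.sup (fun _ _ h _ _ h' G _ _ _ _ g => by
    show T.eval g _ ⊔ T.eval g _ = _ ⊔ _
    rw [h G g, h' G g])⟩
  let _ : Min (Q n) := ⟨Quotient.map₂ T.inf (fun _ _ h _ _ h' G _ _ _ _ g => by
    show T.eval g _ ⊓ T.eval g _ = _ ⊓ _
    rw [h G g, h' G g])⟩
  Lattice.mk'
    (by
      intro a b
      induction a using Quotient.inductionOn with | _ a =>
      induction b using Quotient.inductionOn with | _ b =>
      exact Quotient.sound (fun G _ _ _ _ g => sup_comm _ _))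
    (by
      intro a b c
      induction a using Quotient.inductionOn with | _ a =>
      induction b using Quotient.inductionOn with | _ b =>
      induction c using Quotient.inductionOn with | _ c =>
      exact Quotient.sound (fun G _ _ _ _ g => sup_assoc _ _ _))
    (by
      intro a b
      induction a using Quotient.inductionOn with | _ a =>
      induction b using Quotient.inductionOn with | _ b =>
      exact Quotient.sound (fun G _ _ _ _ g => inf_comm _ _))
    (by
      intro a b c
      induction a using Quotient.inductionOn with | _ a =>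
      induction b using Quotient.inductionOn with | _ b =>
      induction c using Quotient.inductionOn with | _ c =>
      exact Quotient.sound (fun G _ _ _ _ g => inf_assoc _ _ _))
    (by
      intro a b
      induction a using Quotient.inductionOn with | _ a =>
      induction b using Quotient.inductionOn with | _ b =>
      exact Quotient.sound (fun G _ _ _ _ g => sup_inf_self))
    (by
      intro a b
      induction a using Quotient.inductionOn with | _ a =>
      induction b using Quotient.inductionOn with | _ b =>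
      exact Quotient.sound (fun G _ _ _ _ g => inf_sup_self))

private lemma q_mul_sup {n : ℕ} (a b c : Q n) : c * (a ⊔ b) = c * a ⊔ c * b := by
  induction a using Quotient.inductionOn with | _ a =>
  induction b using Quotient.inductionOn with | _ b =>
  induction c using Quotient.inductionOn with | _ c =>
  exact Quotient.sound (fun G _ _ _ _ g => mul_sup _ _ _)

private lemma q_sup_mul {n : ℕ} (a b c : Q n) : (a ⊔ b) * c = a * c ⊔ b * c := by
  induction a using Quotient.inductionOn with | _ a =>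
  induction b using Quotient.inductionOn with | _ b =>
  induction c using Quotient.inductionOn with | _ c =>
  exact Quotient.sound (fun G _ _ _ _ g => sup_mul _ _ _)

private instance (n : ℕ) : MulLeftMono (Q n) := ⟨fun c a b h => by
  have h1 : a ⊔ b = b := sup_eq_right.mpr h
  show c * a ≤ c * b
  rw [← sup_eq_right, ← q_mul_sup, h1]⟩

private instance (n : ℕ) : MulRightMono (Q n) := ⟨fun c a b h => by
  have h1 : a ⊔ b = b := sup_eq_right.mpr h
  show a * c ≤ b * c
  rw [← sup_eq_right, ← q_sup_mul, h1]⟩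

private theorem exists_free (n : ℕ) : ∃ (F : Type) (_ : Group F) (_ : Lattice F) (_ : MulLeftMono F) (_ : MulRightMono F) (x : Fin n → F),
    FreeOn F x := by
  refine ⟨Q n, inferInstance, inferInstance, inferInstance, inferInstance, fun i => q (T.var i), ?_⟩
  intro G _ _ _ _ g
  refine ⟨MonoidHom.mk' (Quotient.lift (T.eval g) (fun a b h => h G g)) ?_, ⟨⟨?_, ?_⟩, fun _ => rfl⟩, ?_⟩
  · intro a b
    induction a using Quotient.inductionOn with | _ a =>
    induction b using Quotient.inductionOn with | _ b =>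
    rfl
  · intro a b
    induction a using Quotient.inductionOn with | _ a =>
    induction b using Quotient.inductionOn with | _ b =>
    rfl
  · intro a b
    induction a using Quotient.inductionOn with | _ a =>
    induction b using Quotient.inductionOn with | _ b =>
    rfl
  · rintro φ ⟨⟨h1, h2⟩, h3⟩
    have key : ∀ a : T n, φ (q a) = T.eval g a := by
      intro a
      induction a with
      | var i => exact h3 i
      | one => exact map_one φ
      | mul a b ha hb =>
        have h4 : q (T.mul a b) = q a * q b := rfl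
        rw [h4, map_mul, ha, hb]; rfl
      | inv a ha =>
        have h4 : q (T.inv a) = (q a)⁻¹ := rfl
        rw [h4, map_inv, ha]; rfl
      | sup a b ha hb =>
        have h4 : q (T.sup a b) = q a ⊔ q b := rfl
        rw [h4, h1, ha, hb]; rfl
      | inf a b ha hb =>
        have h4 : q (T.inf a b) = q a ⊓ q b := rfl
        rw [h4, h2, ha, hb]; rfl
    ext a
    induction a using Quotient.inductionOn with | _ a =>
    exact key a

end terms

/-- every free `l`-group of finite rank is Hopfian -/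
private theorem hopf {m : ℕ} {F : Type} [Group F] [Lattice F] [MulLeftMono F] [MulRightMono F] {x : Fin m → F} (hF : FreeOn F x)
    (ψ : F →* F) (hψ : IsLHom ψ) (hs : Function.Surjective ψ) : Function.Injective ψ := by
  obtain ⟨K, _, _, _, _, z, hK⟩ := exists_free (m + 2)
  obtain ⟨ι, ⟨hι, hιx⟩, -⟩ := hF K (fun i => z (Fin.castAdd 2 i))
  obtain ⟨ρ, ⟨hρ, hρz⟩, -⟩ := hK F (Fin.addCases x (fun _ => 1))
  obtain ⟨Ψ, ⟨hΨ, hΨz⟩, -⟩ := hK K (Fin.addCases (fun i => ι (ψ (x i))) (fun j => z (Fin.natAdd m j)))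
  have hρι : ρ.comp ι = MonoidHom.id F := by
    obtain ⟨φ, -, hu⟩ := hF F x
    rw [hu (ρ.comp ι) ⟨comp_isLHom hι hρ, fun i => by simp [hιx, hρz]⟩, hu (MonoidHom.id F) ⟨id_isLHom, fun _ => rfl⟩]
  have hcomm : Ψ.comp ι = ι.comp ψ := by
    obtain ⟨φ, -, hu⟩ := hF K (fun i => ι (ψ (x i)))
    rw [hu (Ψ.comp ι) ⟨comp_isLHom hι hΨ, fun i => by simp [hιx, hΨz]⟩, hu (ι.comp ψ) ⟨comp_isLHom hψ hι, fun _ => rfl⟩]
  have hΨs : Function.Surjective Ψ := by
    refine surj_of_range (generates_of_freeOn hK) Ψ hΨ ?_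
    intro i
    refine Fin.addCases (fun i => ?_) (fun j => ?_) i
    · obtain ⟨a, ha⟩ := hs (x i)
      refine ⟨ι a, ?_⟩
      have := DFunLike.congr_fun hcomm a
      simp only [MonoidHom.comp_apply] at this
      rw [this, ha, hιx]
    · exact ⟨z (Fin.natAdd m j), by rw [hΨz]; simp⟩
  have hΨi : Function.Injective Ψ :=
    Pool.Agent.Helper9.Hopf.hopfian_of_isFreeL (by omega) (isFreeL hK) Ψ hΨ.1 hΨ.2 hΨs
  intro a b hab
  have h1 : Ψ (ι a) = Ψ (ι b) := by
    have e1 := DFunLike.congr_fun hcomm a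
    have e2 := DFunLike.congr_fun hcomm b
    simp only [MonoidHom.comp_apply] at e1 e2
    rw [e1, e2, hab]
  have h2 := congrArg ρ (hΨi h1)
  have e1 := DFunLike.congr_fun hρι a
  have e2 := DFunLike.congr_fun hρι b
  simp only [MonoidHom.comp_apply, MonoidHom.id_apply] at e1 e2
  rwa [e1, e2] at h2

private theorem ranks {n m : ℕ} (hnm : n ≤ m) {F F' : Type} [Group F] [Lattice F] [MulLeftMono F] [MulRightMono F] [Group F'] [Lattice F']
    [MulLeftMono F'] [MulRightMono F'] {x : Fin n → F} {x' : Fin m → F'} (hF : FreeOn F x) (hF' : FreeOn F' x') (ψ : F →* F')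
    (hψ : IsLHom ψ) (hs : Function.Surjective ψ) : n = m ∧ Function.Injective ψ := by
  obtain ⟨π, ⟨hπ, hπx⟩, -⟩ := hF' F (fun i => if h : (i : ℕ) < n then x ⟨i, h⟩ else 1)
  have hπs : Function.Surjective π := by
    refine surj_of_range (generates_of_freeOn hF) π hπ (fun i => ⟨x' ⟨i, by omega⟩, ?_⟩)
    rw [hπx]; simp
  have hinj : Function.Injective (ψ.comp π) := hopf hF' (ψ.comp π) (comp_isLHom hπ hψ) (hs.comp hπs)
  have hπi : Function.Injective π := by
    intro a b hab
    apply hinj
    simp only [MonoidHom.comp_apply, hab]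
  constructor
  · by_contra hne
    have hlt : n < m := lt_of_le_of_ne hnm hne
    have h1 : π (x' ⟨n, hlt⟩) = π 1 := by
      rw [hπx, map_one]; simp
    have h2 := hπi h1
    obtain ⟨φ, ⟨-, hφ⟩, -⟩ := hF' (Multiplicative ℤ) (fun _ => Multiplicative.ofAdd 1)
    have h3 := hφ ⟨n, hlt⟩
    rw [h2, map_one] at h3
    exact absurd h3 (by decide)
  · intro a b hab
    obtain ⟨a, rfl⟩ := hπs a
    obtain ⟨b, rfl⟩ := hπs b
    exact congrArg π (hinj hab)

private theorem generating {n m : ℕ} (hmn : m ≤ n) {F : Type} [Group F] [Lattice F] [MulLeftMono F] [MulRightMono F] {x : Fin n → F}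
    (hF : FreeOn F x) (y : Fin m → F) (hy : Generates F y) : m = n ∧ FreeOn F y := by
  obtain ⟨K, _, _, _, _, z, hK⟩ := exists_free m
  obtain ⟨ψ, ⟨hψ, hψz⟩, -⟩ := hK F y
  have hs : Function.Surjective ψ := surj_of_range hy ψ hψ (fun i => ⟨z i, hψz i⟩)
  obtain ⟨h1, h2⟩ := ranks hmn hK hF ψ hψ hs
  refine ⟨h1, ?_⟩
  let e : K ≃* F := MulEquiv.ofBijective ψ ⟨h2, hs⟩
  have he : ∀ a, e a = ψ a := fun _ => rfl
  have hesup : ∀ a b, e.symm (a ⊔ b) = e.symm a ⊔ e.symm b := by
    intro a b
    apply e.injective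
    rw [MulEquiv.apply_symm_apply, he, hψ.1, ← he, ← he, MulEquiv.apply_symm_apply, MulEquiv.apply_symm_apply]
  have heinf : ∀ a b, e.symm (a ⊓ b) = e.symm a ⊓ e.symm b := by
    intro a b
    apply e.injective
    rw [MulEquiv.apply_symm_apply, he, hψ.2, ← he, ← he, MulEquiv.apply_symm_apply, MulEquiv.apply_symm_apply]
  intro G _ _ _ _ g
  obtain ⟨φ, ⟨hφ, hφz⟩, hu⟩ := hK G g
  refine ⟨φ.comp e.symm.toMonoidHom, ⟨⟨?_, ?_⟩, ?_⟩, ?_⟩
  · intro a b
    show φ (e.symm (a ⊔ b)) = φ (e.symm a) ⊔ φ (e.symm b)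
    rw [hesup, hφ.1]
  · intro a b
    show φ (e.symm (a ⊓ b)) = φ (e.symm a) ⊓ φ (e.symm b)
    rw [heinf, hφ.2]
  · intro i
    show φ (e.symm (y i)) = g i
    rw [← hψz i, ← he, MulEquiv.symm_apply_apply, hφz]
  · rintro φ' ⟨hφ', hφ'y⟩
    have := hu (φ'.comp ψ) ⟨comp_isLHom hψ hφ', fun i => by simp [hψz, hφ'y]⟩
    ext a
    show φ' a = φ (e.symm a)
    rw [← this]
    show φ' a = φ' (ψ (e.symm a))
    rw [← he, MulEquiv.apply_symm_apply]

/-- Free `l`-groups of all finite ranks exist. A surjective `l`-homomorphism from a free `l`-group of rank `n` to one of rank `m ≥ n` is injective,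
and `n = m`. A family of `m ≤ n` elements which generates a free `l`-group of rank `n` is a free generating family, and `m = n`. -/
theorem result :
    (∀ n : ℕ, ∃ (F : Type) (_ : Group F) (_ : Lattice F) (_ : MulLeftMono F) (_ : MulRightMono F) (x : Fin n → F), FreeOn F x) ∧
    (∀ n m : ℕ, n ≤ m → ∀ (F F' : Type) [Group F] [Lattice F] [MulLeftMono F] [MulRightMono F] [Group F'] [Lattice F']
      [MulLeftMono F'] [MulRightMono F'] (x : Fin n → F) (x' : Fin m → F'), FreeOn F x → FreeOn F' x' →
      ∀ ψ : F →* F', IsLHom ψ → Function.Surjective ψ → n = m ∧ Function.Injective ψ) ∧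
    (∀ n m : ℕ, m ≤ n → ∀ (F : Type) [Group F] [Lattice F] [MulLeftMono F] [MulRightMono F] (x : Fin n → F), FreeOn F x →
      ∀ y : Fin m → F, Generates F y → m = n ∧ FreeOn F y) :=
  ⟨exists_free, fun _ _ hnm _ _ _ _ _ _ _ _ _ _ _ _ hF hF' ψ hψ hs => ranks hnm hF hF' ψ hψ hs,
    fun _ _ hmn _ _ _ _ _ _ hF y hy => generating hmn hF y hy⟩

end Pool.Agent.Results.MP_258808_al.FreeRanks
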